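import Pool.Agent.W593.ZT.Stm

open scoped Classical

set_option autoImplicit false

namespace Pool.Agent.W748.ZT

open Pool.Agent.W593.ZT

lemma ncl_pair {G : Type} [AddCommGroup G] (R : AddSubgroup G) (x y : G) (h : y - x ∉ R) :
    1 ≤ ncl R ({x, y} : Finset G) - 1 := by
  unfold ncl
  rw [Finset.image_insert, Finset.image_singleton, Finset.card_pair]
  intro he
  apply h
  rw [QuotientAddGroup.eq] at he
  have : y - x = -x + y := by abel
  rw [this]
  exact he

theorem plr1 (hK2 : S_K2) (hCOMP : S_COMP) : S_PLR1 := by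
  intro V G _ _ c S S1 W H H1 L0 b1 h1 hSS1 hS1 hb1 hHH1 hH1W hL0 hL0c hB hh1 hD hR hPL
  obtain ⟨Hp, L', A', hH1p, hpW, hL', hA', hcov, hbd⟩ := hPL
  set d : V → G := fun z => c z (h1 z) - c z b1 with hd
  set A : V → Finset G := fun z => {c z b1, c z (h1 z)} with hA
  set Z : Finset V := L0.filter (fun z => d z ∈ S1 ∧ z ∉ Hp ∧ z ∉ L') with hZ
  have hZs : ∀ z ∈ Z, z ∈ L0 ∧ d z ∈ S1 ∧ z ∉ Hp ∧ z ∉ L' := by
    intro z hz
    rw [hZ, Finset.mem_filter] at hz
    exact hz
  have hu1 : 1 ≤ S1.index := Nat.one_le_iff_ne_zero.2 AddSubgroup.index_ne_zero_of_finite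
  -- the exceptional set
  have he0 : (L0.filter (fun z => d z ∉ S1)).card ≤ (nc c S1 W H1).card := by
    apply Finset.card_le_card
    intro z hz
    rw [Finset.mem_filter] at hz
    unfold nc
    rw [Finset.mem_filter]
    refine ⟨hL0 hz.1, fun ht => hz.2 ?_⟩
    exact ht _ (Finset.mem_image_of_mem _ (hh1 z hz.1)) _
      (Finset.mem_image_of_mem _ (hHH1 hb1))
  have he1 : (L0.filter (fun z => d z ∉ S1)).card + ((Hp \ H1).card + L'.card) + 2 ≤
      2 * S1.index := by
    have h1 : (L0.filter (fun z => d z ∉ S1)).card ≤ min (nc c S1 W H1).card (S1.index - 1) := by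
      apply le_min he0
      have hD' : (L0.filter (fun z => d z ∉ S1)).card + 2 ≤ S1.index := hD
      omega
    omega
  have hTc : ∀ z ∈ Z, (A z).Nonempty ∧ Tc S1 (A z) := by
    intro z hz
    refine ⟨⟨c z b1, by simp [hA]⟩, ?_⟩
    have h2 := (hZs z hz).2.1
    intro x hx y hy
    simp only [hA, Finset.mem_insert, Finset.mem_singleton] at hx hy
    rcases hx with rfl | rfl <;> rcases hy with rfl | rfl
    · simp
    · have := S1.neg_mem h2
      rw [hd] at this
      simpa using this
    · exact h2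
    · simp
  have hsum : ∀ R : AddSubgroup G,
      (Z.filter (fun z => d z ∉ R)).card ≤ ∑ z ∈ Z, (ncl R (A z) - 1) := by
    intro R
    rw [Finset.card_filter]
    refine Finset.sum_le_sum fun z _ => ?_
    by_cases h : d z ∉ R
    · rw [if_pos h]
      exact ncl_pair R _ _ h
    · rw [if_neg h]
      exact Nat.zero_le _
  have hK : ∀ R : AddSubgroup G, S ≤ R → R < S1 →
      R.relIndex S1 ≤ 1 + ∑ z ∈ Z, (ncl R (A z) - 1) := by
    intro R hSR hRS1
    have hi := AddSubgroup.relIndex_mul_index hRS1.le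
    have ht0 : R.relIndex S1 ≠ 0 := by
      intro h
      rw [h, zero_mul] at hi
      exact AddSubgroup.index_ne_zero_of_finite hi.symm
    have ht1 : R.relIndex S1 ≠ 1 := by
      intro h
      exact absurd (AddSubgroup.relIndex_eq_one.1 h) (not_le_of_gt hRS1)
    have hsub : L0.filter (fun z => d z ∉ R) ⊆
        Z.filter (fun z => d z ∉ R) ∪ (L0.filter (fun z => d z ∉ S1) ∪ ((Hp \ H1) ∪ L')) := by
      intro z hz
      rw [Finset.mem_filter] at hz
      simp only [Finset.mem_union, Finset.mem_filter, Finset.mem_sdiff]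
      by_cases h1 : d z ∈ S1
      · by_cases h2 : z ∈ Hp
        · right; right; left
          exact ⟨h2, (Finset.mem_sdiff.1 (hL0 hz.1)).2⟩
        · by_cases h3 : z ∈ L'
          · right; right; right; exact h3
          · left
            refine ⟨?_, hz.2⟩
            rw [hZ, Finset.mem_filter]
            exact ⟨hz.1, h1, h2, h3⟩
      · right; left
        exact ⟨hz.1, h1⟩
    have hc := (Finset.card_le_card hsub).trans ((Finset.card_union_le _ _).trans
      (Nat.add_le_add_left ((Finset.card_union_le _ _).trans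
        (Nat.add_le_add_left (Finset.card_union_le _ _) _)) _))
    have h3 := hR R hSR hRS1
    have h4 := hsum R
    have h5 : R.index + 1 ≤ (Z.filter (fun z => d z ∉ R)).card + 2 * S1.index := by
      have h6 : R.index ≤ 1 + (L0.filter (fun z => d z ∉ R)).card := h3
      omega
    rw [← hi] at h5
    obtain ⟨t, ht⟩ : ∃ t, R.relIndex S1 = t + 2 := ⟨R.relIndex S1 - 2, by omega⟩
    obtain ⟨u, hu⟩ : ∃ u, S1.index = u + 1 := ⟨S1.index - 1, by omega⟩
    rw [ht] at h5 ⊢
    rw [hu] at h5
    nlinarith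
  obtain ⟨Z', hZ'Z, hZ'c, hZ'cov⟩ := hK2 V G S S1 hSS1.le Z A hTc hK
  have hdisj : Disjoint Z' L' := by
    rw [Finset.disjoint_left]
    intro z hz hz'
    exact (hZs z (hZ'Z hz)).2.2.2 hz'
  have hc := hCOMP V G S S1 ⊤ Z' L' A A' le_top hdisj (fun z hz => hTc z (hZ'Z hz))
    (fun z hz => (hA' z hz).1) hZ'cov hcov
  refine ⟨Hp, Z' ∪ L', fun z => if z ∈ Z' then A z else A' z, hHH1.trans hH1p, hpW, ?_, ?_, hc, ?_⟩
  · apply Finset.union_subset _ hL'
    intro z hz
    have := hZs z (hZ'Z hz)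
    rw [Finset.mem_sdiff]
    exact ⟨(Finset.mem_sdiff.1 (hL0 this.1)).1, this.2.2.1⟩
  · intro z hz
    by_cases h : z ∈ Z'
    · simp only [if_pos h]
      refine ⟨(hTc z (hZ'Z h)).1, ?_⟩
      intro x hx
      simp only [hA, Finset.mem_insert, Finset.mem_singleton] at hx
      unfold Cs
      rcases hx with rfl | rfl
      · exact Finset.mem_image_of_mem _ (hH1p (hHH1 hb1))
      · exact Finset.mem_image_of_mem _ (hH1p (hh1 z (hZs z (hZ'Z h)).1))
    · simp only [if_neg h]
      rcases Finset.mem_union.1 hz with h' | h'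
      · exact absurd h' h
      · exact hA' z h'
  · have hi := AddSubgroup.relIndex_mul_index hSS1.le
    have ht0 : S.relIndex S1 ≠ 0 := by
      intro h
      rw [h, zero_mul] at hi
      exact AddSubgroup.index_ne_zero_of_finite hi.symm
    have ht1 : S.relIndex S1 ≠ 1 := by
      intro h
      exact absurd (AddSubgroup.relIndex_eq_one.1 h) (not_le_of_gt hSS1)
    have h1 : (Hp \ H).card ≤ (H1 \ H).card + (Hp \ H1).card := by
      refine (Finset.card_le_card ?_).trans (Finset.card_union_le _ _)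
      intro z hz
      rw [Finset.mem_sdiff] at hz
      simp only [Finset.mem_union, Finset.mem_sdiff]
      by_cases h : z ∈ H1
      · exact Or.inl ⟨h, hz.2⟩
      · exact Or.inr ⟨hz.1, h⟩
    have h2 : (Z' ∪ L').card ≤ Z'.card + L'.card := Finset.card_union_le _ _
    have h3 : 2 * S1.index + S.relIndex S1 ≤ S.index + 2 := by
      rw [← hi]
      obtain ⟨t, ht⟩ : ∃ t, S.relIndex S1 = t + 2 := ⟨S.relIndex S1 - 2, by omega⟩
      obtain ⟨u, hu⟩ : ∃ u, S1.index = u + 1 := ⟨S1.index - 1, by omega⟩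
      rw [ht, hu]
      nlinarith
    omega

end Pool.Agent.W748.ZT
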